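import Pool.Agent.Y927.LR.Dist

/-!
# Character sums of an odd distribution
-/

set_option autoImplicit false

namespace Pool.Agent.Y927.LR

open Real Finset

theorem sum_split {M : Type*} [AddCommMonoid M] (N l : ℕ) (hN : 0 < N) (F : ℕ → M) :
    ∑ a ∈ range (l * N), F a = ∑ b ∈ range N, ∑ j ∈ range l, F (b + j * N) := by
  rw [← Finset.sum_product']
  refine Finset.sum_nbij' (fun a => (a % N, a / N)) (fun p => p.1 + p.2 * N) ?_ ?_ ?_ ?_ ?_
  · intro a ha
    rw [Finset.mem_range] at ha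
    rw [Finset.mem_product, Finset.mem_range, Finset.mem_range]
    exact ⟨Nat.mod_lt _ hN, Nat.div_lt_of_lt_mul (by rwa [mul_comm])⟩
  · rintro ⟨b, j⟩ hp
    rw [Finset.mem_product, Finset.mem_range, Finset.mem_range] at hp
    rw [Finset.mem_range]
    have h1 : b + j * N < N + j * N := by have := hp.1; simp only at this; omega
    have h2 : N + j * N = (j + 1) * N := by ring
    have h3 : (j + 1) * N ≤ l * N := Nat.mul_le_mul_right _ hp.2
    simp only
    omega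
  · intro a _
    simp only
    rw [mul_comm]
    exact Nat.mod_add_div a N
  · rintro ⟨b, j⟩ hp
    rw [Finset.mem_product, Finset.mem_range, Finset.mem_range] at hp
    simp only at hp ⊢
    rw [Nat.add_mul_mod_self_right, Nat.mod_eq_of_lt hp.1, Nat.add_mul_div_right _ _ hN,
      Nat.div_eq_of_lt hp.1, zero_add]
  · intro a _
    simp only
    congr 1
    rw [mul_comm]
    exact (Nat.mod_add_div a N).symm

theorem sum_mult {M : Type*} [AddCommMonoid M] (N l : ℕ) (hl : 0 < l) (F : ℕ → M) :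
    ∑ a ∈ (range (l * N)).filter (l ∣ ·), F a = ∑ b ∈ range N, F (l * b) := by
  symm
  refine Finset.sum_nbij' (fun b => l * b) (fun a => a / l) ?_ ?_ ?_ ?_ ?_
  · intro b hb
    rw [Finset.mem_range] at hb
    rw [Finset.mem_filter, Finset.mem_range]
    exact ⟨Nat.mul_lt_mul_of_pos_left hb hl, Dvd.intro _ rfl⟩
  · intro a ha
    rw [Finset.mem_filter, Finset.mem_range] at ha
    rw [Finset.mem_range]
    exact Nat.div_lt_of_lt_mul ha.1
  · intro b _
    exact Nat.mul_div_cancel_left b hl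
  · intro a ha
    rw [Finset.mem_filter] at ha
    exact Nat.mul_div_cancel' ha.2
  · intro b _
    rfl

/-- The value of a linear form at `log Γ(a / q)`. -/
noncomputable def G (φ : ℝ →ₗ[ℚ] ℂ) (q a : ℕ) : ℂ := φ (Real.log (Gamma ((a : ℝ) / q)))

theorem G_zero (φ : ℝ →ₗ[ℚ] ℂ) (q : ℕ) : G φ q 0 = 0 := by
  unfold G
  simp

theorem G_mul (φ : ℝ →ₗ[ℚ] ℂ) {l N : ℕ} (hl : 0 < l) (b : ℕ) :
    G φ (l * N) (l * b) = G φ N b := by
  unfold G
  congr 3
  have : (l : ℝ) ≠ 0 := by exact_mod_cast hl.ne'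
  push_cast
  exact mul_div_mul_left _ _ this

theorem G_refl (φ : ℝ →ₗ[ℚ] ℂ) (hφ : ∀ x ∈ W, φ x = 0) {q a : ℕ} (h0 : 0 < a) (h1 : a < q) :
    G φ q (q - a) = - G φ q a := by
  have hq : (0 : ℝ) < q := by exact_mod_cast h0.trans h1
  have h := hφ _ (refl_mem_W ((a : ℚ) / q) (by
    have h2 : (0 : ℚ) < a := by exact_mod_cast h0
    have h3 : (0 : ℚ) < q := by exact_mod_cast h0.trans h1
    positivity) (by
    rw [div_lt_one (by exact_mod_cast h0.trans h1)]
    exact_mod_cast h1))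
  rw [map_add] at h
  unfold G
  have e1 : (((a : ℚ) / q : ℚ) : ℝ) = (a : ℝ) / q := by push_cast; ring
  have e2 : ((q - a : ℕ) : ℝ) / q = 1 - (a : ℝ) / q := by
    rw [Nat.cast_sub h1.le]
    field_simp
  rw [e1] at h
  rw [e2]
  exact eq_neg_of_add_eq_zero_right h

theorem G_dist (φ : ℝ →ₗ[ℚ] ℂ) (hφ : ∀ x ∈ W, φ x = 0) {l N : ℕ} (hl : 0 < l) (hN : 0 < N)
    (b : ℕ) : ∑ j ∈ range l, G φ (l * N) (b + j * N) = G φ N b := by
  have hl' : (0 : ℝ) < l := by exact_mod_cast hl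
  have hN' : (0 : ℝ) < N := by exact_mod_cast hN
  have e1 : ∀ j : ℕ, ((b + j * N : ℕ) : ℝ) / ((l * N : ℕ) : ℝ) =
      ((b : ℝ) / ((l : ℝ) * N)) + (j : ℝ) / l := by
    intro j
    push_cast
    field_simp
  rcases Nat.eq_zero_or_pos b with rfl | hb
  · rw [G_zero]
    have h := hφ _ (const_mem_W hl)
    rw [map_sum] at h
    rw [← h]
    refine Finset.sum_congr rfl fun j _ => ?_
    unfold G
    rw [e1 j]
    simp
  · have hb' : (0 : ℝ) < b := by exact_mod_cast hb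
    have h := hφ _ (mult_mem_W hl ((b : ℚ) / (l * N)) (by positivity))
    rw [map_sub, map_sum, sub_eq_zero] at h
    have e2 : (((b : ℚ) / ((l : ℚ) * N) : ℚ) : ℝ) = (b : ℝ) / ((l : ℝ) * N) := by push_cast; ring
    rw [e2] at h
    have e3 : (l : ℝ) * ((b : ℝ) / ((l : ℝ) * N)) = (b : ℝ) / N := by field_simp
    rw [e3] at h
    unfold G
    rw [← h]
    refine Finset.sum_congr rfl fun j _ => ?_
    rw [e1 j]

/-- The character sum attached to a linear form. -/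
noncomputable def S (φ : ℝ →ₗ[ℚ] ℂ) {q : ℕ} (χ : DirichletCharacter ℂ q) : ℂ :=
  ∑ a ∈ range q, χ (a : ZMod q) * G φ q a

theorem S_even (φ : ℝ →ₗ[ℚ] ℂ) (hφ : ∀ x ∈ W, φ x = 0) {q : ℕ} (hq : 0 < q)
    (χ : DirichletCharacter ℂ q) (h : χ.Even) : S φ χ = 0 := by
  obtain ⟨m, rfl⟩ : ∃ m, q = m + 1 := ⟨q - 1, by omega⟩
  unfold S
  rw [Finset.sum_range_succ', G_zero, mul_zero, add_zero]
  have e : ∑ k ∈ range m, χ ((k + 1 : ℕ) : ZMod (m + 1)) * G φ (m + 1) (k + 1) =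
      - ∑ k ∈ range m, χ ((k + 1 : ℕ) : ZMod (m + 1)) * G φ (m + 1) (k + 1) := by
    conv_lhs => rw [← Finset.sum_range_reflect]
    rw [← Finset.sum_neg_distrib]
    refine Finset.sum_congr rfl fun k hk => ?_
    rw [Finset.mem_range] at hk
    have e1 : m - 1 - k + 1 = (m + 1) - (k + 1) := by omega
    rw [e1, G_refl φ hφ (Nat.succ_pos k) (by omega)]
    have e2 : (((m + 1) - (k + 1) : ℕ) : ZMod (m + 1)) = -((k + 1 : ℕ) : ZMod (m + 1)) := by
      rw [Nat.cast_sub (by omega)]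
      simp
    rw [e2, h.eval_neg]
    ring
  have e3 := eq_neg_iff_add_eq_zero.1 e
  have e4 : (2 : ℂ) * ∑ k ∈ range m, χ ((k + 1 : ℕ) : ZMod (m + 1)) * G φ (m + 1) (k + 1) = 0 := by
    rw [two_mul]; exact e3
  rcases mul_eq_zero.1 e4 with h5 | h5
  · norm_num at h5
  · exact h5

/-- The relation for a character which is induced from a level prime to `l`. -/
theorem S_level (φ : ℝ →ₗ[ℚ] ℂ) (hφ : ∀ x ∈ W, φ x = 0) {l N m : ℕ} (hl : l.Prime) (hN : 0 < N)
    (hm : m ∣ N) (χ : DirichletCharacter ℂ (l * N)) (ψ : DirichletCharacter ℂ m)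
    (h0 : ∀ a : ℕ, l ∣ a → χ (a : ZMod (l * N)) = 0)
    (h1 : ∀ a : ℕ, ¬ l ∣ a → χ (a : ZMod (l * N)) = ψ (a : ZMod m))
    (h2 : ψ (l : ZMod m) = 1) : S φ χ = 0 := by
  have e1 : S φ χ = ∑ a ∈ range (l * N), ψ (a : ZMod m) * G φ (l * N) a -
      ∑ a ∈ (range (l * N)).filter (l ∣ ·), ψ (a : ZMod m) * G φ (l * N) a := by
    rw [eq_sub_iff_add_eq, Finset.sum_filter, S, ← Finset.sum_add_distrib]
    refine Finset.sum_congr rfl fun a _ => ?_
    by_cases ha : l ∣ a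
    · rw [h0 a ha, if_pos ha]; ring
    · rw [h1 a ha, if_neg ha]; ring
  rw [e1, sum_split N l hN, sum_mult N l hl.pos, sub_eq_zero]
  refine Finset.sum_congr rfl fun b _ => ?_
  have e2 : ∀ j ∈ range l, ψ ((b + j * N : ℕ) : ZMod m) * G φ (l * N) (b + j * N) =
      ψ (b : ZMod m) * G φ (l * N) (b + j * N) := by
    intro j _
    congr 2
    have : ((N : ℕ) : ZMod m) = 0 := (ZMod.natCast_eq_zero_iff N m).2 hm
    push_cast
    rw [this]
    ring
  rw [Finset.sum_congr rfl e2, ← Finset.mul_sum, G_dist φ hφ hl.pos hN, G_mul φ hl.pos]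
  push_cast
  rw [map_mul, h2, one_mul]

end Pool.Agent.Y927.LR
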