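import Pool.Agent.Y927.LR.Trdeg

/-!
# When the transcendence degree drops
-/

set_option autoImplicit false

namespace Pool.Agent.Y927.LR

open Real Finset

theorem exists_hom {G : Type} [CommGroup G] [Finite G] {a : G} (ha : a ≠ 1) :
    ∃ φ : G →* ℂˣ, φ a ≠ 1 := by
  have : NeZero (Monoid.exponent G) := ⟨Monoid.exponent_ne_zero_of_finite⟩
  exact CommGroup.exists_apply_ne_one_of_hasEnoughRootsOfUnity G ℂ ha

theorem exists_odd_char (m : ℕ) [NeZero m] (u : (ZMod m)ˣ) (h : ∀ k : ℕ, u ^ k ≠ -1) :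
    ∃ ψ : DirichletCharacter ℂ m, ψ.Odd ∧ ψ (u : ZMod m) = 1 := by
  have ha : (QuotientGroup.mk (-1 : (ZMod m)ˣ) : (ZMod m)ˣ ⧸ Subgroup.zpowers u) ≠ 1 := by
    intro hc
    rw [QuotientGroup.eq_one_iff] at hc
    obtain ⟨k, hk⟩ := (mem_powers_iff_mem_zpowers (x := u)).2 hc
    exact h k hk
  obtain ⟨φ, hφ⟩ := exists_hom ha
  refine ⟨MulChar.ofUnitHom (φ.comp (QuotientGroup.mk' _)), ?_, ?_⟩
  · have h1 : (MulChar.ofUnitHom (φ.comp (QuotientGroup.mk' (Subgroup.zpowers u)))) (-1) ≠ 1 := by
      have e : (-1 : ZMod m) = ((-1 : (ZMod m)ˣ) : ZMod m) := by simp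
      rw [e, MulChar.ofUnitHom_coe]
      intro hc
      apply hφ
      exact Units.ext hc
    rcases DirichletCharacter.even_or_odd (S := ℂ)
      (MulChar.ofUnitHom (φ.comp (QuotientGroup.mk' (Subgroup.zpowers u)))) with h2 | h2
    · exact absurd h2 h1
    · exact h2
  · rw [MulChar.ofUnitHom_coe]
    have e : (QuotientGroup.mk' (Subgroup.zpowers u)) u = 1 := by
      rw [QuotientGroup.mk'_apply, QuotientGroup.eq_one_iff]
      exact Subgroup.mem_zpowers u
    rw [MonoidHom.comp_apply, e, map_one]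
    rfl

open Classical in
/-- If some odd character is not good then there are fewer than `φ(q) / 2` good characters. -/
theorem card_good_lt {q : ℕ} [NeZero q] (χ₀ : DirichletCharacter ℂ q) (h1 : χ₀.Odd)
    (h2 : ¬ Good q χ₀) :
    1 + Fintype.card {χ : DirichletCharacter ℂ q // Good q χ} ≤ q.totient / 2 := by
  have hcard : Fintype.card (DirichletCharacter ℂ q) = q.totient := by
    rw [← Nat.card_eq_fintype_card]
    exact DirichletCharacter.card_eq_totient_of_hasEnoughRootsOfUnity ℂ q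
  set O := (Finset.univ : Finset (DirichletCharacter ℂ q)).filter fun χ => χ.Odd with hO
  set E := (Finset.univ : Finset (DirichletCharacter ℂ q)).filter fun χ => χ.Even with hE
  have hEO : O.card ≤ E.card := by
    refine Finset.card_le_card_of_injOn (fun χ => χ₀ * χ) ?_ ?_
    · intro χ hχ
      rw [hO, Finset.coe_filter] at hχ
      rw [hE, Finset.coe_filter]
      refine ⟨Finset.mem_univ _, ?_⟩
      have h3 : χ (-1) = -1 := hχ.2
      have h4 : χ₀ (-1) = -1 := h1
      show (χ₀ * χ) (-1) = 1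
      rw [MulChar.mul_apply, h3, h4]
      norm_num
    · intro a _ b _ hab
      exact mul_left_cancel hab
  have hsum : E.card + O.card ≤ q.totient := by
    rw [← hcard, ← Finset.card_univ, ← Finset.card_union_of_disjoint]
    · exact Finset.card_le_card (Finset.subset_univ _)
    · rw [Finset.disjoint_left]
      intro χ h3 h4
      rw [hE, Finset.mem_filter] at h3
      rw [hO, Finset.mem_filter] at h4
      exact DirichletCharacter.not_even_and_odd (S := ℂ) χ ⟨h3.2, h4.2⟩
  have hG : Fintype.card {χ : DirichletCharacter ℂ q // Good q χ} ≤ (O.erase χ₀).card := by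
    rw [Fintype.card_subtype]
    apply Finset.card_le_card
    intro χ h3
    rw [Finset.mem_filter] at h3
    rw [Finset.mem_erase, hO, Finset.mem_filter]
    refine ⟨?_, Finset.mem_univ _, h3.2.1⟩
    rintro rfl
    exact h2 h3.2
  have hmem : χ₀ ∈ O := by
    rw [hO, Finset.mem_filter]
    exact ⟨Finset.mem_univ _, h1⟩
  rw [Finset.card_erase_of_mem hmem] at hG
  have h5 : 0 < O.card := Finset.card_pos.2 ⟨_, hmem⟩
  omega

/-- If `-1` is not a power of the prime divisor `l` of `q` modulo a divisor `m` of `q` prime to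
`l` then the transcendence degree is at most `φ(q) / 2`. -/
theorem trdeg_drop {q l m : ℕ} (hq : 0 < q) (hl : l.Prime) (hlq : l ∣ q) (hm : m ∣ q)
    (hlm : l.Coprime m) (h : ∀ k : ℕ, (l : ZMod m) ^ k ≠ -1) :
    Algebra.trdeg ℚ (F q) ≤ ((q.totient / 2 : ℕ) : Cardinal) := by
  classical
  have : NeZero q := ⟨hq.ne'⟩
  have : NeZero m := ⟨(Nat.pos_of_dvd_of_pos hm hq).ne'⟩
  obtain ⟨ψ, hψ1, hψ2⟩ := exists_odd_char m (ZMod.unitOfCoprime l hlm) (by
    intro k hk
    apply h k
    have := congrArg (fun x : (ZMod m)ˣ => (x : ZMod m)) hk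
    simpa [ZMod.coe_unitOfCoprime] using this)
  rw [ZMod.coe_unitOfCoprime] at hψ2
  have hq1 : 1 < q := lt_of_lt_of_le hl.one_lt (Nat.le_of_dvd hq hlq)
  refine (trdeg_F_le hq1).trans ?_
  have key := card_good_lt (q := q) (DirichletCharacter.changeLevel hm ψ) ?_ ?_
  · exact_mod_cast key
  · show (DirichletCharacter.changeLevel hm ψ) (-1) = -1
    have h1 := DirichletCharacter.changeLevel_eq_cast_of_dvd ψ hm (-1 : (ZMod q)ˣ)
    have e : (((-1 : (ZMod q)ˣ) : ZMod q)) = -1 := by simp
    rw [e] at h1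
    rw [h1]
    have e2 : ((-1 : ZMod q).cast : ZMod m) = -1 := by
      have h5 := map_neg (ZMod.castHom hm (ZMod m)) 1
      rw [map_one, ZMod.castHom_apply] at h5
      exact h5
    rw [e2]
    exact hψ1
  · rintro ⟨-, h1⟩
    apply h1 l hl hlq
    have h2 := DirichletCharacter.primitiveCharacter_changeLevel_apply hm ψ (l : ℤ)
    have h3 := DirichletCharacter.primitiveCharacter_apply_of_isCoprime ψ (a := (l : ℤ))
      (Nat.isCoprime_iff_coprime.2 hlm)
    rw [h3] at h2
    push_cast at h2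
    rw [h2]
    exact hψ2

end Pool.Agent.Y927.LR
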