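import Pool.Agent.Y927.LR.Crit
import Pool.Agent.TH888.B1.Core
import Pool.Agent.Helper379.Div3

/-!
# The transcendence degree drops for almost all `q`
-/

set_option autoImplicit false

namespace Pool.Agent.Y927.LR

open Real Finset

theorem kind_fin (m : ℕ) [NeZero m] (a : ZMod m) (ha : IsUnit a) (ε : ℝ) (hε : 0 < ε) :
    ∃ P : Finset ℕ, (∀ p ∈ P, p.Prime ∧ (p : ZMod m) = a) ∧ ∃ L : ℕ, ∀ X : ℕ, L ≤ X → ∀ b : ℕ,
      (({n : ℕ | ∀ r ∈ P, ¬ r ∣ n} ∩ Set.Ioc b (b + X)).ncard : ℝ) ≤ ε * X := by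
  have hdiv := Pool.Agent.Helper379.Div3.not_summable_inv_primes_mod (q := m) (a := a) ha
  have hdiv' : ¬ Summable (fun r : ℕ => {r : ℕ | r.Prime ∧ (r : ZMod m) = a}.indicator
      (fun n : ℕ => (1 : ℝ) / n) r) := by
    intro hs
    apply hdiv
    refine hs.congr ?_
    intro r
    rw [Set.indicator_apply]
    simp only [Set.mem_ofPred_eq]
  obtain ⟨P, hP, L, hL⟩ := Pool.Agent.TH888.B1.class_fin {r : ℕ | r.Prime ∧ (r : ZMod m) = a}
    (fun r hr => hr.1) hdiv' (fun _ => 0) ε hε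
  refine ⟨P, hP, L, fun X hX b => ?_⟩
  have e : {n : ℕ | ∀ r ∈ P, (n : ZMod r) ≠ 0} = {n : ℕ | ∀ r ∈ P, ¬ r ∣ n} := by
    ext n
    simp only [Set.mem_ofPred_eq, ne_eq, ZMod.natCast_eq_zero_iff]
  rw [← e]
  exact hL X hX b

theorem dens (ε : ℝ) (hε : 0 < ε) : ∃ L : ℕ, ∀ X : ℕ, L ≤ X → ∀ b : ℕ,
    ((({q : ℕ | ¬ Algebra.trdeg ℚ (F q) ≤ ((q.totient / 2 : ℕ) : Cardinal)}) ∩
      Set.Ioc b (b + X)).ncard : ℝ) ≤ ε * X := by
  have h4 : NeZero 4 := ⟨by norm_num⟩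
  obtain ⟨P, hP, L, hL⟩ := kind_fin 4 (-1) isUnit_one.neg (ε / 2) (by positivity)
  have h5 : ∀ p : ℕ, ∃ Q : Finset ℕ, ∃ L' : ℕ, p ∈ P → (∀ l ∈ Q, l.Prime ∧ (l : ZMod p) = 1) ∧
      ∀ X : ℕ, L' ≤ X → ∀ b : ℕ, (({n : ℕ | ∀ r ∈ Q, ¬ r ∣ n} ∩ Set.Ioc b (b + X)).ncard : ℝ) ≤
        ε / (2 * (P.card + 1)) * X := by
    intro p
    by_cases hp : p ∈ P
    · have : NeZero p := ⟨(hP p hp).1.ne_zero⟩
      obtain ⟨Q, hQ, L', hL'⟩ := kind_fin p 1 isUnit_one (ε / (2 * (P.card + 1))) (by positivity)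
      exact ⟨Q, L', fun _ => ⟨hQ, hL'⟩⟩
    · exact ⟨∅, 0, fun h => absurd h hp⟩
  choose Q L' h6 using h5
  refine ⟨max L (P.sup L'), fun X hX b => ?_⟩
  have hsub : ({q : ℕ | ¬ Algebra.trdeg ℚ (F q) ≤ ((q.totient / 2 : ℕ) : Cardinal)}) ∩
      Set.Ioc b (b + X) ⊆ ({n : ℕ | ∀ r ∈ P, ¬ r ∣ n} ∩ Set.Ioc b (b + X)) ∪
        ⋃ p ∈ P, ({n : ℕ | ∀ r ∈ Q p, ¬ r ∣ n} ∩ Set.Ioc b (b + X)) := by
    rintro q ⟨hq1, hq2⟩
    by_contra hc
    rw [Set.mem_union, not_or] at hc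
    obtain ⟨hc1, hc2⟩ := hc
    have h7 : ∃ p ∈ P, p ∣ q := by
      by_contra h8
      push Not at h8
      exact hc1 ⟨h8, hq2⟩
    obtain ⟨p, hpP, hpq⟩ := h7
    have h9 : ∃ l ∈ Q p, l ∣ q := by
      by_contra h8
      push Not at h8
      apply hc2
      rw [Set.mem_iUnion₂]
      exact ⟨p, hpP, h8, hq2⟩
    obtain ⟨l, hlQ, hlq⟩ := h9
    obtain ⟨hl1, hl2⟩ := (h6 p hpP).1 l hlQ
    obtain ⟨hp1, hp2⟩ := hP p hpP
    have hp3 : 3 ≤ p := by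
      rcases hp1.two_le.eq_or_lt with h10 | h10
      · exfalso
        rw [← h10] at hp2
        revert hp2
        decide
      · exact h10
    have hcop : l.Coprime p := by
      rw [Nat.Prime.coprime_iff_not_dvd hl1]
      intro h11
      rcases (Nat.Prime.eq_one_or_self_of_dvd hp1 l h11) with h12 | h12
      · exact hl1.one_lt.ne' h12
      · rw [h12] at hl2
        have : Fact (1 < p) := ⟨by omega⟩
        rw [ZMod.natCast_self] at hl2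
        exact zero_ne_one hl2
    apply hq1
    refine trdeg_drop (q := q) (l := l) (m := p) (by
      have := hq2.1; omega) hl1 hlq hpq hcop fun k hk => ?_
    rw [hl2, one_pow] at hk
    have h13 : ((2 : ℕ) : ZMod p) = 0 := by
      push_cast
      have : (2 : ZMod p) = 1 + 1 := by norm_num
      rw [this]
      nth_rewrite 2 [hk]
      ring
    rw [ZMod.natCast_eq_zero_iff] at h13
    have := Nat.le_of_dvd (by norm_num) h13
    omega
  have hfin : ∀ S : Set ℕ, (S ∩ Set.Ioc b (b + X)).Finite := fun S =>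
    (Set.finite_Ioc b (b + X)).subset Set.inter_subset_right
  have h14 : ((({q : ℕ | ¬ Algebra.trdeg ℚ (F q) ≤ ((q.totient / 2 : ℕ) : Cardinal)}) ∩
      Set.Ioc b (b + X)).ncard : ℝ) ≤ (({n : ℕ | ∀ r ∈ P, ¬ r ∣ n} ∩ Set.Ioc b (b + X)).ncard : ℝ) +
        ∑ p ∈ P, (({n : ℕ | ∀ r ∈ Q p, ¬ r ∣ n} ∩ Set.Ioc b (b + X)).ncard : ℝ) := by
    have h15 := Set.ncard_le_ncard hsub ((hfin _).union
      (Set.Finite.biUnion P.finite_toSet fun p _ => hfin _))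
    have h16 := Set.ncard_union_le ({n : ℕ | ∀ r ∈ P, ¬ r ∣ n} ∩ Set.Ioc b (b + X))
      (⋃ p ∈ P, ({n : ℕ | ∀ r ∈ Q p, ¬ r ∣ n} ∩ Set.Ioc b (b + X)))
    have h17 := Finset.set_ncard_biUnion_le P
      (fun p => ({n : ℕ | ∀ r ∈ Q p, ¬ r ∣ n} ∩ Set.Ioc b (b + X)))
    exact_mod_cast h15.trans (h16.trans (Nat.add_le_add_left h17 _))
  refine h14.trans ?_
  have h18 := hL X ((le_max_left _ _).trans hX) b
  have h19 : ∑ p ∈ P, (({n : ℕ | ∀ r ∈ Q p, ¬ r ∣ n} ∩ Set.Ioc b (b + X)).ncard : ℝ) ≤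
      ∑ p ∈ P, ε / (2 * (P.card + 1)) * X := by
    refine Finset.sum_le_sum fun p hp => (h6 p hp).2 X ?_ b
    exact (Finset.le_sup hp).trans ((le_max_right _ _).trans hX)
  rw [Finset.sum_const, nsmul_eq_mul] at h19
  have h20 : (P.card : ℝ) * (ε / (2 * (P.card + 1)) * X) ≤ ε / 2 * X := by
    have h21 : (P.card : ℝ) * (ε / (2 * (P.card + 1))) ≤ ε / 2 := by
      have h22 : (0 : ℝ) < P.card + 1 := by positivity
      rw [mul_div_assoc', div_le_div_iff₀ (by positivity) (by norm_num)]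
      nlinarith
    calc (P.card : ℝ) * (ε / (2 * (P.card + 1)) * X) = (P.card : ℝ) * (ε / (2 * (P.card + 1))) * X := by
          ring
      _ ≤ ε / 2 * X := mul_le_mul_of_nonneg_right h21 (by positivity)
  linarith

end Pool.Agent.Y927.LR
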