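import Pool.Agent.Y927.LR.Mult

/-!
# `log Γ` modulo logarithms of algebraic numbers and of `π` is an odd distribution
-/

set_option autoImplicit false

namespace Pool.Agent.Y927.LR

open Real Finset

theorem isAlgebraic_rpow {y : ℝ} (hy : 0 < y) (h : IsAlgebraic ℚ y) (c : ℚ) :
    IsAlgebraic ℚ (y ^ (c : ℝ)) := by
  have hd : (0 : ℝ) < c.den := by exact_mod_cast c.den_pos
  have e : (y ^ (c : ℝ)) ^ c.den = y ^ c.num := by
    rw [← rpow_natCast, ← rpow_mul hy.le, ← rpow_intCast]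
    congr 1
    have := Rat.mul_den_eq_num c
    exact_mod_cast this
  have h2 : IsAlgebraic ℚ ((y ^ (c : ℝ)) ^ c.den) := by
    rw [e]
    rcases Int.eq_nat_or_neg c.num with ⟨n, hn | hn⟩
    · rw [hn, zpow_natCast]
      exact h.pow n
    · rw [hn, zpow_neg, zpow_natCast]
      exact (h.pow n).inv
  exact IsAlgebraic.of_pow c.den_pos h2

/-- The rational subspace of the numbers `log α + r log π`, `α > 0` algebraic, `r` rational. -/
noncomputable def W : Submodule ℚ ℝ where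
  carrier := {x | ∃ r : ℚ, IsAlgebraic ℚ (Real.exp (x - r * Real.log π))}
  zero_mem' := ⟨0, by simpa using isAlgebraic_one⟩
  add_mem' := by
    rintro x y ⟨r, hr⟩ ⟨s, hs⟩
    refine ⟨r + s, ?_⟩
    have : x + y - ((r + s : ℚ) : ℝ) * Real.log π = (x - r * Real.log π) + (y - s * Real.log π) := by
      push_cast; ring
    rw [this, Real.exp_add]
    exact hr.mul hs
  smul_mem' := by
    rintro c x ⟨r, hr⟩
    refine ⟨c * r, ?_⟩
    have : c • x - ((c * r : ℚ) : ℝ) * Real.log π = (x - r * Real.log π) * (c : ℝ) := by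
      rw [Rat.smul_def]; push_cast; ring
    rw [this, Real.exp_mul]
    exact isAlgebraic_rpow (Real.exp_pos _) hr c

theorem mem_W_iff {x : ℝ} : x ∈ W ↔ ∃ r : ℚ, IsAlgebraic ℚ (Real.exp (x - r * Real.log π)) :=
  Iff.rfl

theorem log_mem_W {y : ℝ} (hy : 0 < y) (h : IsAlgebraic ℚ y) : Real.log y ∈ W :=
  ⟨0, by simpa [Real.exp_log hy] using h⟩

theorem log_pi_mem_W : Real.log π ∈ W := ⟨1, by simpa using isAlgebraic_one⟩

theorem isAlgebraic_Q_of_Z {y : ℝ} (h : IsAlgebraic ℤ y) : IsAlgebraic ℚ y :=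
  h.extendScalars (algebraMap ℤ ℚ).injective_int

theorem refl_mem_W (x : ℚ) (h0 : 0 < x) (h1 : x < 1) :
    Real.log (Gamma (x : ℝ)) + Real.log (Gamma (1 - (x : ℝ))) ∈ W := by
  have h0' : (0 : ℝ) < x := by exact_mod_cast h0
  have h1' : (x : ℝ) < 1 := by exact_mod_cast h1
  rw [← Real.log_mul (Gamma_pos_of_pos h0').ne' (Gamma_pos_of_pos (by linarith)).ne',
    Real.Gamma_mul_Gamma_one_sub]
  have hs : 0 < Real.sin (π * x) := Real.sin_pos_of_pos_of_lt_pi (by positivity)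
    (by nlinarith [Real.pi_pos])
  rw [Real.log_div Real.pi_pos.ne' hs.ne']
  refine W.sub_mem log_pi_mem_W (log_mem_W hs ?_)
  rw [mul_comm]
  exact isAlgebraic_Q_of_Z (Real.isAlgebraic_sin_rat_mul_pi x)

theorem half_mem {x : ℝ} (h : x + x ∈ W) : x ∈ W := by
  have := W.smul_mem (1 / 2 : ℚ) h
  have e : (1 / 2 : ℚ) • (x + x) = x := by
    rw [Rat.smul_def]; push_cast; ring
  rwa [e] at this

theorem log_Gamma_zero : Real.log (Gamma 0) = 0 := by simp

theorem const_mem_W {n : ℕ} (hn : 0 < n) :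
    ∑ k ∈ range n, Real.log (Gamma ((k : ℝ) / n)) ∈ W := by
  apply half_mem
  have hn' : (0 : ℝ) < n := by exact_mod_cast hn
  obtain ⟨m, rfl⟩ : ∃ m, n = m + 1 := ⟨n - 1, by omega⟩
  rw [Finset.sum_range_succ']
  simp only [Nat.cast_zero, zero_div, log_Gamma_zero, add_zero]
  nth_rewrite 2 [← Finset.sum_range_reflect]
  rw [← Finset.sum_add_distrib]
  refine W.sum_mem fun k hk => ?_
  rw [Finset.mem_range] at hk
  have hx := refl_mem_W (((k + 1 : ℕ) : ℚ) / ((m + 1 : ℕ) : ℚ)) (by positivity) (by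
    rw [div_lt_one (by positivity)]
    exact_mod_cast (by omega : k + 1 < m + 1))
  have e1 : ((((k + 1 : ℕ) : ℚ) / ((m + 1 : ℕ) : ℚ) : ℚ) : ℝ) = ((k + 1 : ℕ) : ℝ) / ((m + 1 : ℕ) : ℝ) := by
    push_cast; ring
  rw [e1] at hx
  have e2 : (1 : ℝ) - ((k + 1 : ℕ) : ℝ) / ((m + 1 : ℕ) : ℝ) =
      ((m - 1 - k + 1 : ℕ) : ℝ) / ((m + 1 : ℕ) : ℝ) := by
    have h3 : m - 1 - k + 1 = m - k := by omega
    rw [h3, Nat.cast_sub (by omega)]
    field_simp
    push_cast
    ring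
  rw [e2] at hx
  exact hx

/-- The distribution relation. -/
theorem mult_mem_W {n : ℕ} (hn : 0 < n) (x : ℚ) (hx : 0 < x) :
    (∑ k ∈ range n, Real.log (Gamma ((x : ℝ) + k / n))) - Real.log (Gamma (n * (x : ℝ))) ∈ W := by
  have hn' : (0 : ℝ) < n := by exact_mod_cast hn
  have hx' : (0 : ℝ) < x := by exact_mod_cast hx
  have h := mult_formula hn hx'
  have h2 := congrArg Real.log h
  have hG : ∀ k ∈ range n, Gamma ((x : ℝ) + k / n) ≠ 0 := fun k _ =>
    (Gamma_pos_of_pos (by positivity)).ne'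
  have hC : ∀ k ∈ range n, Gamma ((1 : ℝ) / n + k / n) ≠ 0 := fun k _ =>
    (Gamma_pos_of_pos (by positivity)).ne'
  rw [Real.log_prod hG, Real.log_mul (mul_ne_zero (rpow_pos_of_pos hn' _).ne'
    (Gamma_pos_of_pos (by positivity)).ne') (prod_ne_zero_iff.2 hC),
    Real.log_mul (rpow_pos_of_pos hn' _).ne' (Gamma_pos_of_pos (by positivity)).ne',
    Real.log_prod hC] at h2
  have h3 : ∑ k ∈ range n, Real.log (Gamma ((1 : ℝ) / n + k / n)) =
      ∑ k ∈ range n, Real.log (Gamma ((k : ℝ) / n)) := by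
    have e1 : ∑ k ∈ range n, Real.log (Gamma ((1 : ℝ) / n + k / n)) =
        ∑ k ∈ range n, Real.log (Gamma (((k + 1 : ℕ) : ℝ) / n)) := by
      refine sum_congr rfl fun k _ => ?_
      congr 2
      push_cast
      ring
    rw [e1]
    have e2 := Finset.sum_range_succ' (fun k : ℕ => Real.log (Gamma ((k : ℝ) / n))) n
    have e3 := Finset.sum_range_succ (fun k : ℕ => Real.log (Gamma ((k : ℝ) / n))) n
    have e4 : Real.log (Gamma ((n : ℝ) / n)) = 0 := by rw [div_self hn'.ne']; simp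
    have e5 : Real.log (Gamma (((0 : ℕ) : ℝ) / n)) = 0 := by simp
    rw [e5, add_zero] at e2
    rw [e4, add_zero] at e3
    rw [← e2, e3]
  rw [h3] at h2
  rw [h2]
  have h4 : Real.log ((n : ℝ) ^ (1 - n * (x : ℝ))) ∈ W := by
    refine log_mem_W (rpow_pos_of_pos hn' _) ?_
    have e6 : (1 - n * (x : ℝ)) = ((1 - n * x : ℚ) : ℝ) := by push_cast; ring
    rw [e6]
    exact isAlgebraic_rpow hn' (isAlgebraic_nat n) _
  have h5 := W.add_mem h4 (const_mem_W hn)
  have e7 : Real.log ((n : ℝ) ^ (1 - n * (x : ℝ))) + Real.log (Gamma (n * (x : ℝ))) +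
      ∑ k ∈ range n, Real.log (Gamma ((k : ℝ) / n)) - Real.log (Gamma (n * (x : ℝ))) =
      Real.log ((n : ℝ) ^ (1 - n * (x : ℝ))) + ∑ k ∈ range n, Real.log (Gamma ((k : ℝ) / n)) := by
    ring
  rw [e7]
  exact h5

end Pool.Agent.Y927.LR
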