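import Mathlib

/-!
# The multiplication formula of Gauss, modulo logarithms of algebraic numbers and of `π`

`W` is the rational subspace of `ℝ` of the numbers `log α + r log π`, `α > 0` algebraic, `r` rational.
The numbers `log Γ(x)`, `x` rational, `0 < x < 1`, satisfy modulo `W` the relations of an odd
distribution.
-/

set_option autoImplicit false

namespace Pool.Agent.Y927.LR

open Real Finset

/-- The function which agrees with `Γ`, for the multiplication formula. -/
noncomputable def mulGamma (n : ℕ) (s : ℝ) : ℝ :=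
  (n : ℝ) ^ (s - 1) * (∏ k ∈ range n, Gamma (s / n + k / n)) / ∏ k ∈ range n, Gamma (1 / n + k / n)

theorem arg_pos {n : ℕ} (hn : 0 < n) {s : ℝ} (hs : 0 < s) (k : ℕ) : 0 < s / n + k / n := by
  have h1 : (0 : ℝ) < n := by exact_mod_cast hn
  positivity

theorem mulGamma_pos {n : ℕ} (hn : 0 < n) {s : ℝ} (hs : 0 < s) : 0 < mulGamma n s := by
  have h1 : (0 : ℝ) < n := by exact_mod_cast hn
  unfold mulGamma
  refine div_pos (mul_pos (rpow_pos_of_pos h1 _) ?_) ?_
  · exact prod_pos fun k _ => Gamma_pos_of_pos (arg_pos hn hs k)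
  · exact prod_pos fun k _ => Gamma_pos_of_pos (arg_pos hn one_pos k)

theorem mulGamma_one {n : ℕ} (hn : 0 < n) : mulGamma n 1 = 1 := by
  unfold mulGamma
  rw [sub_self, rpow_zero, one_mul]
  exact div_self (prod_pos fun k _ => Gamma_pos_of_pos (arg_pos hn one_pos k)).ne'

theorem mulGamma_add_one {n : ℕ} (hn : 0 < n) {s : ℝ} (hs : 0 < s) :
    mulGamma n (s + 1) = s * mulGamma n s := by
  have h1 : (0 : ℝ) < n := by exact_mod_cast hn
  unfold mulGamma
  have hprod : (∏ k ∈ range n, Gamma ((s + 1) / n + k / n)) =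
      (s / n) * ∏ k ∈ range n, Gamma (s / n + k / n) := by
    have e1 : (∏ k ∈ range n, Gamma ((s + 1) / n + k / n)) * Gamma (s / n + (0 : ℕ) / n) =
        (∏ k ∈ range n, Gamma (s / n + k / n)) * Gamma (s / n + (n : ℕ) / n) := by
      rw [← Finset.prod_range_succ (fun k : ℕ => Gamma (s / n + k / n)) n,
        Finset.prod_range_succ' (fun k : ℕ => Gamma (s / n + k / n)) n]
      congr 1
      refine prod_congr rfl fun k _ => ?_
      congr 1
      push_cast
      ring
    have e2 : Gamma (s / n + (n : ℕ) / n) = s / n * Gamma (s / n) := by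
      rw [div_self h1.ne', Gamma_add_one (by positivity)]
    have e3 : Gamma (s / n + (0 : ℕ) / n) = Gamma (s / n) := by simp
    rw [e2, e3] at e1
    have h2 : Gamma (s / n) ≠ 0 := (Gamma_pos_of_pos (by positivity)).ne'
    have e4 : (∏ k ∈ range n, Gamma ((s + 1) / n + k / n)) * Gamma (s / n) =
        (s / n * ∏ k ∈ range n, Gamma (s / n + k / n)) * Gamma (s / n) := by
      rw [e1]; ring
    exact mul_right_cancel₀ h2 e4
  rw [hprod]
  have e5 : (n : ℝ) ^ (s + 1 - 1) = (n : ℝ) ^ (s - 1) * n := by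
    rw [show s + 1 - 1 = (s - 1) + 1 by ring, rpow_add h1, rpow_one]
  rw [e5]
  field_simp

theorem mulGamma_log {n : ℕ} (hn : 0 < n) :
    Set.EqOn (log ∘ mulGamma n) (fun s => (∑ k ∈ range n, log (Gamma (s / n + k / n))) +
      s * log n + (- log n - log (∏ k ∈ range n, Gamma (1 / n + k / n)))) (Set.Ioi 0) := by
  intro s hs
  have h1 : (0 : ℝ) < n := by exact_mod_cast hn
  have hs' : 0 < s := hs
  have hA : (∏ k ∈ range n, Gamma (s / n + k / n)) ≠ 0 :=
    (prod_pos fun k _ => Gamma_pos_of_pos (arg_pos hn hs' k)).ne'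
  have hB : (∏ k ∈ range n, Gamma (1 / n + k / n)) ≠ 0 :=
    (prod_pos fun k _ => Gamma_pos_of_pos (arg_pos hn one_pos k)).ne'
  simp only [Function.comp_apply, mulGamma]
  rw [log_div (mul_ne_zero (rpow_pos_of_pos h1 _).ne' hA) hB, log_mul (rpow_pos_of_pos h1 _).ne' hA,
    log_rpow h1, log_prod (fun k _ => (Gamma_pos_of_pos (arg_pos hn hs' k)).ne')]
  ring

theorem convex_piece {n : ℕ} (hn : 0 < n) (k : ℕ) :
    ConvexOn ℝ (Set.Ioi (0 : ℝ)) (fun s : ℝ => log (Gamma (s / n + k / n))) := by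
  have h1 : (0 : ℝ) < n := by exact_mod_cast hn
  refine ⟨convex_Ioi _, fun x hx y hy a b ha hb hab => ?_⟩
  have hx' : 0 < x / n + k / n := arg_pos hn hx k
  have hy' : 0 < y / n + k / n := arg_pos hn hy k
  have := convexOn_log_Gamma.2 hx' hy' ha hb hab
  simp only [smul_eq_mul, Function.comp_apply] at this ⊢
  have e : (a * x + b * y) / n + k / n = a * (x / n + k / n) + b * (y / n + k / n) := by
    have h2 : a * (x / n + k / n) + b * (y / n + k / n) =
        (a * x + b * y) / n + (a + b) * ((k : ℝ) / n) := by ring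
    rw [h2, hab, one_mul]
  rw [e]
  exact this

theorem mulGamma_convex {n : ℕ} (hn : 0 < n) :
    ConvexOn ℝ (Set.Ioi (0 : ℝ)) (log ∘ mulGamma n) := by
  refine ConvexOn.congr ?_ (mulGamma_log hn).symm
  refine (ConvexOn.add ?_ ?_).add_const _
  · have : (fun s : ℝ => ∑ k ∈ range n, log (Gamma (s / n + k / n))) =
        ∑ k ∈ range n, fun s : ℝ => log (Gamma (s / n + k / n)) := by
      funext s
      rw [Finset.sum_apply]
    show ConvexOn ℝ (Set.Ioi (0 : ℝ)) (fun s : ℝ => ∑ k ∈ range n, log (Gamma (s / n + k / n)))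
    rw [this]
    refine Finset.sum_induction _ (fun f : ℝ → ℝ => ConvexOn ℝ (Set.Ioi (0 : ℝ)) f)
      (fun f g hf hg => hf.add hg) ?_ (fun k _ => convex_piece hn k)
    exact convexOn_const 0 (convex_Ioi _)
  · refine ⟨convex_Ioi _, fun x hx y hy a b ha hb hab => le_of_eq ?_⟩
    simp only [smul_eq_mul]
    ring

theorem mulGamma_eq {n : ℕ} (hn : 0 < n) {s : ℝ} (hs : 0 < s) : mulGamma n s = Gamma s :=
  eq_Gamma_of_log_convex (mulGamma_convex hn) (fun {_} hy => mulGamma_add_one hn hy)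
    (fun {_} hy => mulGamma_pos hn hy) (mulGamma_one hn) hs

/-- The multiplication formula: `∏ Γ(x + k/n) = n ^ (1 - n x) Γ(n x) ∏ Γ((1 + k)/n)`. -/
theorem mult_formula {n : ℕ} (hn : 0 < n) {x : ℝ} (hx : 0 < x) :
    ∏ k ∈ range n, Gamma (x + k / n) =
      (n : ℝ) ^ (1 - n * x) * Gamma (n * x) * ∏ k ∈ range n, Gamma (1 / n + k / n) := by
  have h1 : (0 : ℝ) < n := by exact_mod_cast hn
  have h := mulGamma_eq hn (mul_pos h1 hx)
  unfold mulGamma at h
  have hB : (∏ k ∈ range n, Gamma (1 / n + k / n)) ≠ 0 :=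
    (prod_pos fun k _ => Gamma_pos_of_pos (arg_pos hn one_pos k)).ne'
  rw [div_eq_iff hB] at h
  have e1 : (n : ℝ) * x / n = x := by field_simp
  rw [e1] at h
  have e2 : (n : ℝ) ^ (1 - n * x) * (n : ℝ) ^ (n * x - 1) = 1 := by
    rw [← rpow_add h1]
    simp
  calc ∏ k ∈ range n, Gamma (x + k / n)
      = (n : ℝ) ^ (1 - n * x) * ((n : ℝ) ^ (n * x - 1) * ∏ k ∈ range n, Gamma (x + k / n)) := by
        rw [← mul_assoc, e2, one_mul]
    _ = _ := by rw [h]; ring

end Pool.Agent.Y927.LR
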