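import Pool.Agent.Y927.LR.Char

/-!
# The rank of the primitive part of an odd distribution
-/

set_option autoImplicit false

namespace Pool.Agent.Y927.LR

open Real Finset

theorem changeLevel_natCast {n m : ℕ} (hm : n ∣ m) (χ : DirichletCharacter ℂ n) {a : ℕ}
    (ha : a.Coprime m) :
    DirichletCharacter.changeLevel hm χ (a : ZMod m) = χ (a : ZMod n) := by
  have h := DirichletCharacter.changeLevel_eq_cast_of_dvd χ hm (ZMod.unitOfCoprime a ha)
  rw [ZMod.coe_unitOfCoprime] at h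
  rw [h, ZMod.cast_natCast hm]

theorem apply_eq_zero {n : ℕ} (χ : DirichletCharacter ℂ n) {a : ℕ} (ha : ¬ a.Coprime n) :
    χ (a : ZMod n) = 0 := by
  apply MulChar.map_nonunit
  rwa [ZMod.isUnit_iff_coprime]

/-- The odd Dirichlet characters modulo `q` whose primitive characters take the value `1` at no
prime divisor of `q`. -/
def Good (q : ℕ) (χ : DirichletCharacter ℂ q) : Prop :=
  χ.Odd ∧ ∀ l : ℕ, l.Prime → l ∣ q → χ.primitiveCharacter (l : ZMod χ.conductor) ≠ 1

theorem S_prim (φ : ℝ →ₗ[ℚ] ℂ) (hφ : ∀ x ∈ W, φ x = 0) {q l : ℕ} (hq : 0 < q) (hl : l.Prime)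
    (hlq : l ∣ q) (χ : DirichletCharacter ℂ q)
    (h : χ.primitiveCharacter (l : ZMod χ.conductor) = 1) : S φ χ = 0 := by
  have hlf : l.Coprime χ.conductor := by
    by_contra hc
    rw [apply_eq_zero _ hc] at h
    exact zero_ne_one h
  obtain ⟨v, m, hm, hqm⟩ : ∃ v m : ℕ, l.Coprime m ∧ q = l ^ v * m :=
    ⟨q.factorization l, q / l ^ q.factorization l, Nat.coprime_ordCompl hl hq.ne',
      (Nat.ordProj_mul_ordCompl_eq_self q l).symm⟩
  have hfm : χ.conductor ∣ m := by
    have h1 : χ.conductor ∣ l ^ v * m := hqm ▸ χ.conductor_dvd_level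
    exact (Nat.Coprime.pow_right v hlf.symm).dvd_of_dvd_mul_left h1
  obtain ⟨N, rfl⟩ := hlq
  have hN : 0 < N := Nat.pos_of_ne_zero (by rintro rfl; simp at hq)
  have hmN : m ∣ N := by
    have h1 : m ∣ l * N := by rw [hqm]; exact Dvd.intro_left _ rfl
    exact (Nat.Coprime.symm hm).dvd_of_dvd_mul_left h1
  have hcop : ∀ a : ℕ, ¬ l ∣ a → a.Coprime m → a.Coprime (l * N) := by
    intro a h1 h2
    rw [hqm]
    exact Nat.Coprime.mul_right (Nat.Coprime.pow_right v ((hl.coprime_iff_not_dvd.2 h1).symm)) h2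
  have hprim : ∀ a : ℕ, a.Coprime (l * N) →
      χ (a : ZMod (l * N)) = χ.primitiveCharacter (a : ZMod χ.conductor) := by
    intro a ha
    conv_lhs => rw [← χ.changeLevel_primitiveCharacter]
    exact changeLevel_natCast _ _ ha
  refine S_level φ hφ hl hN hmN χ (DirichletCharacter.changeLevel hfm χ.primitiveCharacter)
    ?_ ?_ ?_
  · intro a ha
    apply apply_eq_zero
    intro hc
    exact hl.one_lt.ne' (Nat.dvd_one.1 (hc ▸ Nat.dvd_gcd ha (Dvd.intro _ rfl)))
  · intro a ha
    by_cases hc : a.Coprime m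
    · rw [hprim a (hcop a ha hc), changeLevel_natCast hfm _ hc]
    · rw [apply_eq_zero _ hc, apply_eq_zero]
      intro h1
      exact hc (Nat.Coprime.coprime_dvd_right (hmN.trans (Dvd.intro_left _ rfl)) h1)
  · rw [changeLevel_natCast hfm _ hm]
    exact h

theorem S_bad (φ : ℝ →ₗ[ℚ] ℂ) (hφ : ∀ x ∈ W, φ x = 0) {q : ℕ} (hq : 0 < q)
    (χ : DirichletCharacter ℂ q) (h : ¬ Good q χ) : S φ χ = 0 := by
  rcases χ.even_or_odd with h1 | h1
  · exact S_even φ hφ hq χ h1
  · unfold Good at h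
    push Not at h
    obtain ⟨l, hl, hlq, h2⟩ := h h1
    exact S_prim φ hφ hq hl hlq χ h2

/-- Inversion. -/
theorem G_eq (φ : ℝ →ₗ[ℚ] ℂ) {q : ℕ} [NeZero q] {a : ℕ} (ha : a < q) (hc : a.Coprime q) :
    (q.totient : ℂ) * G φ q a = ∑ χ : DirichletCharacter ℂ q, χ ((a : ZMod q)⁻¹) * S φ χ := by
  classical
  unfold S
  simp_rw [Finset.mul_sum]
  rw [Finset.sum_comm]
  have hu : IsUnit (a : ZMod q) := (ZMod.isUnit_iff_coprime a q).2 hc
  have e1 : ∀ b ∈ range q, ∑ χ : DirichletCharacter ℂ q, χ ((a : ZMod q)⁻¹) *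
      (χ (b : ZMod q) * G φ q b) = if b = a then (q.totient : ℂ) * G φ q a else 0 := by
    intro b hb
    rw [Finset.mem_range] at hb
    simp_rw [← mul_assoc]
    rw [← Finset.sum_mul, DirichletCharacter.sum_char_inv_mul_char_eq ℂ hu]
    by_cases hab : b = a
    · rw [if_pos hab, hab, if_pos rfl]
    · rw [if_neg hab, if_neg, zero_mul]
      intro h
      apply hab
      have h2 := congrArg ZMod.val h
      rw [ZMod.val_natCast_of_lt ha, ZMod.val_natCast_of_lt hb] at h2
      exact h2.symm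
  rw [Finset.sum_congr rfl e1, Finset.sum_ite_eq' (range q) a, if_pos (Finset.mem_range.2 ha)]

open Classical in
/-- A family of residues prime to `q` for which the numbers `log Γ(a / q)` are independent modulo
`W` has at most as many members as there are good characters. -/
theorem card_le_good {q : ℕ} [NeZero q] {ι : Type} [Fintype ι] (c : ι → ℕ) (hc : ∀ i, c i < q)
    (hc' : ∀ i, (c i).Coprime q)
    (hli : LinearIndependent ℚ fun i => W.mkQ (Real.log (Gamma ((c i : ℝ) / q)))) :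
    Fintype.card ι ≤ Fintype.card {χ : DirichletCharacter ℂ q // Good q χ} := by
  set v : ι → ℝ ⧸ W := fun i => W.mkQ (Real.log (Gamma ((c i : ℝ) / q))) with hv
  obtain ⟨g, hg⟩ := LinearMap.exists_leftInverse_of_injective (Finsupp.linearCombination ℚ v)
    (LinearMap.ker_eq_bot.2 hli)
  -- the coordinate forms
  let φ : ι → ℝ →ₗ[ℚ] ℂ := fun i => (Algebra.linearMap ℚ ℂ) ∘ₗ (Finsupp.lapply i) ∘ₗ g ∘ₗ W.mkQ
  have hφ : ∀ i, ∀ x ∈ W, φ i x = 0 := by
    intro i x hx
    have : W.mkQ x = 0 := (Submodule.Quotient.mk_eq_zero W).2 hx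
    simp only [φ, LinearMap.comp_apply, this, map_zero]
  have hδ : ∀ i j, G (φ i) q (c j) = if i = j then 1 else 0 := by
    intro i j
    have h1 : g (v j) = Finsupp.single j 1 := by
      have := LinearMap.congr_fun hg (Finsupp.single j 1)
      simpa using this
    simp only [G, φ, LinearMap.comp_apply]
    have h2 : W.mkQ (Real.log (Gamma ((c j : ℝ) / q))) = v j := rfl
    rw [h2, h1]
    simp only [Finsupp.lapply_apply, Finsupp.single_apply, Algebra.linearMap_apply]
    by_cases h : j = i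
    · rw [if_pos h, if_pos h.symm, map_one]
    · rw [if_neg h, if_neg (fun h' => h h'.symm), map_zero]
  have ht : (q.totient : ℂ) ≠ 0 := by
    exact_mod_cast (Nat.totient_pos.2 (Nat.pos_of_ne_zero (NeZero.ne q))).ne'
  let A : Matrix ι {χ : DirichletCharacter ℂ q // Good q χ} ℂ := fun i χ => S (φ i) χ.1
  let B : Matrix {χ : DirichletCharacter ℂ q // Good q χ} ι ℂ := fun χ j =>
    (q.totient : ℂ)⁻¹ * χ.1 ((c j : ZMod q)⁻¹)
  have hAB : A * B = 1 := by
    ext i j
    rw [Matrix.mul_apply, Matrix.one_apply, ← hδ i j]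
    have h1 := G_eq (φ i) (hc j) (hc' j)
    have h2 : ∑ χ : DirichletCharacter ℂ q, χ ((c j : ZMod q)⁻¹) * S (φ i) χ =
        ∑ χ : {χ : DirichletCharacter ℂ q // Good q χ}, χ.1 ((c j : ZMod q)⁻¹) * S (φ i) χ.1 := by
      rw [← Finset.sum_subtype (Finset.univ.filter (Good q)) (by simp)
        (fun χ : DirichletCharacter ℂ q => χ ((c j : ZMod q)⁻¹) * S (φ i) χ)]
      symm
      refine Finset.sum_filter_of_ne fun χ _ hne => ?_
      by_contra hgood
      exact hne (by rw [S_bad (φ i) (hφ i) (Nat.pos_of_ne_zero (NeZero.ne q)) χ hgood, mul_zero])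
    rw [h2] at h1
    have h4 : G (φ i) q (c j) = (q.totient : ℂ)⁻¹ * ((q.totient : ℂ) * G (φ i) q (c j)) := by
      rw [← mul_assoc, inv_mul_cancel₀ ht, one_mul]
    rw [h4, h1, Finset.mul_sum]
    refine Finset.sum_congr rfl fun χ _ => ?_
    simp only [A, B]
    ring
  have h3 := Matrix.rank_mul_le_left A B
  rw [hAB, Matrix.rank_one] at h3
  exact h3.trans (Matrix.rank_le_card_width A)

end Pool.Agent.Y927.LR
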