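import Pool.Agent.Y927.LR.Rank
import Pool.Agent.TH145.MG.Cnt

/-!
# The transcendence degree of the field generated by `π` and the values `Γ(a / q)`, `a` prime to `q`
-/

set_option autoImplicit false

namespace Pool.Agent.Y927.LR

open Real Finset Pool.Agent.TH145.MG

theorem trdeg_adjoin_le (T : Set ℂ) {J : Type} [Finite J] (g : J → ℂ)
    (h : ∀ x ∈ T, x ∈ cl ℚ (Set.range g)) :
    Algebra.trdeg ℚ (IntermediateField.adjoin ℚ T) ≤ (Nat.card J : ℕ) := by
  obtain ⟨s, hs⟩ := exists_isTranscendenceBasis ℚ (IntermediateField.adjoin ℚ T)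
  rw [← hs.cardinalMk_eq_trdeg]
  apply Cardinal.card_le_of
  intro t
  have h1 : AlgebraicIndependent ℚ (fun i : t => ((i.1.1 : IntermediateField.adjoin ℚ T) : ℂ)) := by
    have h2 : AlgebraicIndependent ℚ (fun i : t => (i.1.1 : IntermediateField.adjoin ℚ T)) :=
      hs.1.comp _ Subtype.val_injective
    exact h2.map' (f := (IntermediateField.adjoin ℚ T).val) Subtype.val_injective
  have h3 := card_le (k := ℚ) (Ω := ℂ) (I := t) (J := J) _ h1 g (by
    intro i
    have h4 : IntermediateField.adjoin ℚ T ≤ cl ℚ (Set.range g) :=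
      IntermediateField.adjoin_le_iff.2 h
    exact h4 i.1.1.2)
  simpa using h3

/-- The real numbers whose exponential is algebraic over the field generated by a set `T`. -/
noncomputable def WT (T : Set ℂ) : Submodule ℚ ℝ where
  carrier := {x | ((Real.exp x : ℝ) : ℂ) ∈ cl ℚ T}
  zero_mem' := by
    simp only [Set.mem_ofPred_eq, Real.exp_zero, Complex.ofReal_one]
    exact one_mem _
  add_mem' := by
    intro x y hx hy
    simp only [Set.mem_ofPred_eq, Real.exp_add, Complex.ofReal_mul] at *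
    exact mul_mem hx hy
  smul_mem' := by
    intro c x hx
    simp only [Set.mem_ofPred_eq] at *
    apply root_cl c.den_pos
    have h1 : (((Real.exp (c • x) : ℝ) : ℂ)) ^ c.den = ((Real.exp x : ℝ) : ℂ) ^ c.num := by
      rw [← Complex.ofReal_pow, ← Complex.ofReal_zpow]
      congr 1
      rw [← Real.rpow_natCast, ← Real.rpow_intCast, ← Real.exp_mul, ← Real.exp_mul, Rat.smul_def]
      congr 1
      have h2 : (c : ℝ) * (c.den : ℝ) = (c.num : ℝ) := by exact_mod_cast Rat.mul_den_eq_num c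
      rw [← h2]
      ring
    rw [h1]
    exact zpow_mem hx _

theorem W_le_WT {T : Set ℂ} (hT : (Real.pi : ℂ) ∈ T) : W ≤ WT T := by
  rintro x ⟨r, hr⟩
  have h1 : Real.log π ∈ WT T := by
    show ((Real.exp (Real.log π) : ℝ) : ℂ) ∈ cl ℚ T
    rw [Real.exp_log Real.pi_pos]
    exact subset_cl hT
  have h2 : x - r * Real.log π ∈ WT T := by
    show ((Real.exp (x - r * Real.log π) : ℝ) : ℂ) ∈ cl ℚ T
    rw [mem_cl]
    have h3 : IsAlgebraic ℚ ((Real.exp (x - r * Real.log π) : ℝ) : ℂ) :=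
      hr.algebraMap
    exact h3.tower_top _
  have h4 := (WT T).add_mem h2 ((WT T).smul_mem r h1)
  rw [Rat.smul_def] at h4
  simpa using h4

/-- The field generated by `π` and the values `Γ(a / q)`, `1 ≤ a ≤ q - 1`, `a` prime to `q`. -/
noncomputable def F (q : ℕ) : IntermediateField ℚ ℂ :=
  IntermediateField.adjoin ℚ (insert (Real.pi : ℂ)
    {z | ∃ a : ℕ, 1 ≤ a ∧ a ≤ q - 1 ∧ a.Coprime q ∧ z = Complex.Gamma ((a : ℂ) / (q : ℂ))})

open Classical in
theorem trdeg_F_le {q : ℕ} (hq : 1 < q) : Algebra.trdeg ℚ (F q) ≤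
    ((1 + Fintype.card {χ : DirichletCharacter ℂ q // Good q χ} : ℕ) : Cardinal) := by
  have : NeZero q := ⟨by omega⟩
  -- the family of all residues
  let U : Type := {a : ℕ // a < q ∧ a.Coprime q}
  have : Finite U := Set.Finite.to_subtype ((Set.finite_lt_nat q).subset fun a ha => ha.1)
  have : Fintype U := Fintype.ofFinite U
  let v : U → ℝ ⧸ W := fun a => W.mkQ (Real.log (Gamma ((a.1 : ℝ) / q)))
  obtain ⟨κ, c, hc1, hc2, hc3⟩ := exists_linearIndependent' ℚ v
  have : Finite κ := Finite.of_injective c hc1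
  have : Fintype κ := Fintype.ofFinite κ
  have hcard := card_le_good (ι := κ) (fun i => (c i).1) (fun i => (c i).2.1) (fun i => (c i).2.2) hc3
  let g : Option κ → ℂ := fun o => match o with
    | none => (Real.pi : ℂ)
    | some i => ((Gamma (((c i).1 : ℝ) / q) : ℝ) : ℂ)
  have hmem : ∀ a : U, Real.log (Gamma ((a.1 : ℝ) / q)) ∈ WT (Set.range g) := by
    intro a
    have h1 : v a ∈ Submodule.span ℚ (Set.range (v ∘ c)) := by
      rw [hc2]
      exact Submodule.subset_span ⟨a, rfl⟩
    have h2 : Submodule.span ℚ (Set.range (v ∘ c)) ≤ (WT (Set.range g)).map W.mkQ := by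
      rw [Submodule.span_le]
      rintro _ ⟨i, rfl⟩
      refine ⟨Real.log (Gamma (((c i).1 : ℝ) / q)), ?_, rfl⟩
      show ((Real.exp (Real.log (Gamma (((c i).1 : ℝ) / q))) : ℝ) : ℂ) ∈ cl ℚ (Set.range g)
      have h3 : 0 < ((c i).1 : ℝ) / q := by
        have h4 : 0 < (c i).1 := by
          rcases Nat.eq_zero_or_pos (c i).1 with h5 | h5
          · have h6 := (c i).2.2
            rw [h5, Nat.coprime_zero_left] at h6
            omega
          · exact h5
        have h5 : (0 : ℝ) < (c i).1 := by exact_mod_cast h4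
        have h6 : (0 : ℝ) < q := by exact_mod_cast (by omega : 0 < q)
        positivity
      rw [Real.exp_log (Gamma_pos_of_pos h3)]
      exact subset_cl ⟨some i, rfl⟩
    obtain ⟨y, hy1, hy2⟩ := h2 h1
    have h3 : Real.log (Gamma ((a.1 : ℝ) / q)) - y ∈ W := by
      rw [← Submodule.Quotient.mk_eq_zero, Submodule.Quotient.mk_sub, sub_eq_zero]
      exact hy2.symm
    have hpi : (Real.pi : ℂ) ∈ Set.range g := ⟨none, rfl⟩
    have h4 := (WT (Set.range g)).add_mem (W_le_WT hpi h3) hy1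
    simpa using h4
  have hT : ∀ x ∈ (insert (Real.pi : ℂ)
      {z | ∃ a : ℕ, 1 ≤ a ∧ a ≤ q - 1 ∧ a.Coprime q ∧ z = Complex.Gamma ((a : ℂ) / (q : ℂ))} : Set ℂ),
      x ∈ cl ℚ (Set.range g) := by
    intro x hx
    rcases Set.mem_insert_iff.1 hx with rfl | ⟨a, ha1, ha2, ha3, rfl⟩
    · exact subset_cl ⟨none, rfl⟩
    · have h1 := hmem ⟨a, by omega, ha3⟩
      have h2 : ((Real.exp (Real.log (Gamma ((a : ℝ) / q))) : ℝ) : ℂ) ∈ cl ℚ (Set.range g) := h1
      have h3 : 0 < (a : ℝ) / q := by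
        have h5 : (0 : ℝ) < a := by exact_mod_cast ha1
        have h6 : (0 : ℝ) < q := by exact_mod_cast (by omega : 0 < q)
        positivity
      rw [Real.exp_log (Gamma_pos_of_pos h3), ← Complex.Gamma_ofReal] at h2
      push_cast at h2
      exact h2
  refine (trdeg_adjoin_le _ g hT).trans ?_
  have h1 : Nat.card (Option κ) = Fintype.card κ + 1 := by
    rw [Nat.card_eq_fintype_card, Fintype.card_option]
  rw [h1]
  exact_mod_cast (by omega : Fintype.card κ + 1 ≤ 1 + Fintype.card {χ : DirichletCharacter ℂ q // Good q χ})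

end Pool.Agent.Y927.LR
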